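import Mathlib

set_option autoImplicit false

/-!
Inscribed balls of an intersection of half spaces: if the half spaces whose bounding hyperplanes come
near a given point have only finitely many members with nearly the same direction, then some inscribed
ball touches the boundary at a regular point.
-/

namespace Pool.Agent.TH789.PV

open Set Metric Filter Topology

variable {E : Type*} [NormedAddCommGroup E] [InnerProductSpace ℝ E] {ι : Type*}

/-- the closed ball of radius `r` about `q` lies in all the half spaces -/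
def G (t : ι → E) (a : ι → ℝ) (r : ℝ) (q : E) : Prop := ∀ j, a j + inner ℝ (t j) q + r * ‖t j‖ ≤ 0

variable {t : ι → E} {a : ι → ℝ}

theorem G.move {r r' : ℝ} {q q' : E} (h : G t a r q) (hq : ‖q' - q‖ ≤ r - r') : G t a r' q' := by
  intro j
  have h1 := h j
  have h2 : inner ℝ (t j) q' = inner ℝ (t j) q + inner ℝ (t j) (q' - q) := by
    rw [← inner_add_right]
    congr 1
    abel
  have h3 := real_inner_le_norm (t j) (q' - q)
  have h4 : ‖t j‖ * ‖q' - q‖ ≤ ‖t j‖ * (r - r') := mul_le_mul_of_nonneg_left hq (norm_nonneg _)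
  linarith

/-- the largest inscribed ball with a given centre -/
theorem G.max {r₀ R : ℝ} {q : E} (h : G t a r₀ q) (hR : ¬ G t a R q) :
    ∃ r, r₀ ≤ r ∧ r ≤ R ∧ G t a r q ∧ ∀ r', r < r' → ¬ G t a r' q := by
  set S : Set ℝ := {r | G t a r q} with hS
  have hbd : ∀ r ∈ S, r ≤ R := by
    intro r hr
    by_contra hlt
    push Not at hlt
    apply hR
    refine G.move (r := r) hr ?_
    rw [sub_self, norm_zero]
    linarith
  have hbdd : BddAbove S := ⟨R, hbd⟩
  have hne : S.Nonempty := ⟨r₀, h⟩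
  refine ⟨sSup S, le_csSup hbdd h, csSup_le hne hbd, fun j => ?_, fun r' hr' hG => ?_⟩
  · by_contra hlt
    push Not at hlt
    have hr0 := h j
    have ht : 0 < ‖t j‖ := by
      rcases (norm_nonneg (t j)).eq_or_lt with h0 | h0
      · rw [← h0] at hlt hr0
        linarith
      · exact h0
    have h1 : sSup S - (a j + inner ℝ (t j) q + sSup S * ‖t j‖) / ‖t j‖ < sSup S := by
      have : 0 < (a j + inner ℝ (t j) q + sSup S * ‖t j‖) / ‖t j‖ := by positivity
      linarith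
    obtain ⟨r, hr, hlt2⟩ := exists_lt_of_lt_csSup hne h1
    have h2 := hr j
    have h3 : (sSup S - (a j + inner ℝ (t j) q + sSup S * ‖t j‖) / ‖t j‖) * ‖t j‖ < r * ‖t j‖ :=
      mul_lt_mul_of_pos_right hlt2 ht
    have h4 : (sSup S - (a j + inner ℝ (t j) q + sSup S * ‖t j‖) / ‖t j‖) * ‖t j‖ =
        sSup S * ‖t j‖ - (a j + inner ℝ (t j) q + sSup S * ‖t j‖) := by
      field_simp
    linarith
  · exact absurd (le_csSup hbdd hG) (not_le.2 hr')

/-- The touching lemma. -/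
theorem touch {ρ : ℝ} (hρ : 0 < ρ) (h0 : G t a ρ 0) {y : E} (hy : ¬ G t a 0 y)
    (hfin : ∀ z : E, ∃ δ κ : ℝ, 0 < δ ∧ 0 < κ ∧ ∀ ν : E, ‖ν‖ = 1 →
      {j | (∃ w, ‖w - z‖ ≤ δ ∧ 0 < a j + inner ℝ (t j) w) ∧
        ‖t j‖ - inner ℝ (t j) ν ≤ κ * ‖t j‖}.Finite) :
    ∃ (z : E) (ρ' : ℝ) (A : Set ι), 0 < ρ' ∧ A.Finite ∧ A.Nonempty ∧
      (∀ j ∈ A, a j + inner ℝ (t j) z = 0 ∧ t j ≠ 0) ∧
      ∀ j, j ∉ A → ∀ v : E, ‖v‖ ≤ ρ' → a j + inner ℝ (t j) (z + v) ≤ 0 := by
  -- a boundary point on the segment from `0` to `y`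
  set S : Set ℝ := {s | 0 ≤ s ∧ s ≤ 1 ∧ G t a 0 (s • y)} with hS
  have h00 : G t a 0 (0 : E) := h0.move (by simpa using hρ.le)
  have hS0 : (0 : ℝ) ∈ S := ⟨le_rfl, zero_le_one, by simpa using h00⟩
  have hbdd : BddAbove S := ⟨1, fun s hs => hs.2.1⟩
  set s := sSup S with hs
  have hs0 : 0 ≤ s := le_csSup hbdd hS0
  have hs1 : s ≤ 1 := csSup_le ⟨0, hS0⟩ fun s hs => hs.2.1
  have hGs : G t a 0 (s • y) := by
    intro j
    by_contra hlt
    push Not at hlt
    rw [inner_smul_right, zero_mul, add_zero] at hlt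
    have hj0 := h00 j
    rw [inner_zero_right, zero_mul, add_zero, add_zero] at hj0
    have hpos : 0 < inner ℝ (t j) y := by
      by_contra hn
      push Not at hn
      have : s * inner ℝ (t j) y ≤ 0 := mul_nonpos_of_nonneg_of_nonpos hs0 hn
      linarith
    have h1 : s - (a j + s * inner ℝ (t j) y) / inner ℝ (t j) y < s := by
      have : 0 < (a j + s * inner ℝ (t j) y) / inner ℝ (t j) y := by positivity
      linarith
    obtain ⟨s', hs', hlt2⟩ := exists_lt_of_lt_csSup ⟨0, hS0⟩ h1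
    have h2 := hs'.2.2 j
    rw [inner_smul_right, zero_mul, add_zero] at h2
    have h3 := mul_lt_mul_of_pos_right hlt2 hpos
    have h4 : (s - (a j + s * inner ℝ (t j) y) / inner ℝ (t j) y) * inner ℝ (t j) y =
        s * inner ℝ (t j) y - (a j + s * inner ℝ (t j) y) := by field_simp
    linarith
  have hs1' : s < 1 := by
    rcases hs1.lt_or_eq with h | h
    · exact h
    · exfalso
      apply hy
      rw [h, one_smul] at hGs
      exact hGs
  set z₀ : E := s • y with hz₀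
  obtain ⟨δ, κ, hδ, hκ, hfin⟩ := hfin z₀
  -- a point outside, near `z₀`
  obtain ⟨y₁, hy₁, hy₁n⟩ : ∃ y₁ : E, ¬ G t a 0 y₁ ∧ ‖y₁ - z₀‖ ≤ δ / 8 := by
    set s₁ := min 1 (s + δ / (8 * (‖y‖ + 1))) with hs₁
    have h1 : s < s₁ := lt_min hs1' (by
      have : 0 < δ / (8 * (‖y‖ + 1)) := by positivity
      linarith)
    refine ⟨s₁ • y, fun hG => ?_, ?_⟩
    · have : s₁ ≤ s := le_csSup hbdd ⟨hs0.trans h1.le, min_le_left _ _, hG⟩
      linarith
    · rw [hz₀, ← sub_smul, norm_smul, Real.norm_of_nonneg (by linarith)]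
      have h2 : s₁ - s ≤ δ / (8 * (‖y‖ + 1)) := by
        have := min_le_right 1 (s + δ / (8 * (‖y‖ + 1)))
        linarith
      have hy0 := norm_nonneg y
      calc (s₁ - s) * ‖y‖ ≤ δ / (8 * (‖y‖ + 1)) * (‖y‖ + 1) := by
            apply mul_le_mul h2 (by linarith) hy0 (by positivity)
        _ = δ / 8 := by field_simp
  -- an interior point near `z₀`
  set θ := min (1 / 2) (δ / (8 * (‖z₀‖ + 1))) with hθ
  have hθ0 : 0 < θ := by positivity
  have hθ1 : θ ≤ 1 / 2 := min_le_left _ _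
  have hθz : θ * ‖z₀‖ ≤ δ / 8 := by
    have h1 : θ ≤ δ / (8 * (‖z₀‖ + 1)) := min_le_right _ _
    have hz0 := norm_nonneg z₀
    calc θ * ‖z₀‖ ≤ δ / (8 * (‖z₀‖ + 1)) * (‖z₀‖ + 1) := by
          apply mul_le_mul h1 (by linarith) hz0 (by positivity)
      _ = δ / 8 := by field_simp
  set p : E := (1 - θ) • z₀ with hp
  have hpz : ‖p - z₀‖ ≤ δ / 8 := by
    have h1 : p - z₀ = -(θ • z₀) := by
      rw [hp, sub_smul, one_smul]
      abel
    rw [h1, norm_neg, norm_smul, Real.norm_of_nonneg hθ0.le]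
    exact hθz
  have hGp : G t a (θ * ρ) p := by
    intro j
    have h1 := hGs j
    have h2 := h0 j
    rw [inner_zero_right, add_zero] at h2
    rw [zero_mul, add_zero] at h1
    rw [hp, inner_smul_right]
    have h3 : (1 - θ) * (a j + inner ℝ (t j) z₀) ≤ 0 :=
      mul_nonpos_of_nonneg_of_nonpos (by linarith) h1
    have h4 : θ * (a j + ρ * ‖t j‖) ≤ 0 := mul_nonpos_of_nonneg_of_nonpos hθ0.le h2
    linarith
  have hGp' : ¬ G t a (δ / 4) p := by
    intro hG
    apply hy₁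
    refine hG.move ?_
    have h1 : y₁ - p = (y₁ - z₀) - (p - z₀) := by abel
    rw [h1]
    have := norm_sub_le (y₁ - z₀) (p - z₀)
    linarith
  obtain ⟨r, hr1, hr2, hGr, hrmax⟩ := hGp.max hGp'
  have hr0 : 0 < r := lt_of_lt_of_le (by positivity) hr1
  set τ := r / 2 with hτ
  have hτ0 : 0 < τ := by positivity
  set ε := min (δ / 8) (κ * τ / 2) with hε
  have hε0 : 0 < ε := by positivity
  have hε1 : ε ≤ δ / 8 := min_le_left _ _
  have hε2 : 2 * ε ≤ κ * τ := by
    have := min_le_right (δ / 8) (κ * τ / 2)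
    linarith
  obtain ⟨j₁, hj₁⟩ : ∃ j, 0 < a j + inner ℝ (t j) p + (r + ε) * ‖t j‖ := by
    have := hrmax (r + ε) (by linarith)
    unfold G at this
    push Not at this
    exact this
  have ht₁ : 0 < ‖t j₁‖ := by
    rcases (norm_nonneg (t j₁)).eq_or_lt with h | h
    · have h1 := hGr j₁
      rw [← h] at hj₁ h1
      linarith
    · exact h
  set ν : E := (1 / ‖t j₁‖) • t j₁ with hν
  have hν1 : ‖ν‖ = 1 := by
    rw [hν, norm_smul, Real.norm_of_nonneg (by positivity)]
    field_simp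
  have hνt : inner ℝ (t j₁) ν = ‖t j₁‖ := by
    rw [hν, inner_smul_right, real_inner_self_eq_norm_sq]
    field_simp
  set p' : E := p + τ • ν with hp'
  have hp'p : ‖p' - p‖ = τ := by
    rw [hp', add_sub_cancel_left, norm_smul, hν1, mul_one, Real.norm_of_nonneg hτ0.le]
  have hpt : ∀ j, inner ℝ (t j) p' = inner ℝ (t j) p + τ * inner ℝ (t j) ν := by
    intro j
    rw [hp', inner_add_right, inner_smul_right (t j) ν τ]
  have hGp1 : G t a (r - τ) p' := hGr.move (by rw [hp'p]; linarith)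
  have hGp2 : ¬ G t a (r - τ + ε) p' := by
    intro hG
    have h1 := hG j₁
    rw [hpt, hνt] at h1
    linarith
  obtain ⟨r', hr'1, hr'2, hGr', hr'max⟩ := hGp1.max hGp2
  have hr'0 : 0 < r' := by linarith
  -- near competitors
  set B : Set ι := {j | 0 < a j + inner ℝ (t j) p' + (r' + ε) * ‖t j‖} with hB
  have hBt : ∀ j ∈ B, 0 < ‖t j‖ := by
    intro j hj
    rcases (norm_nonneg (t j)).eq_or_lt with h | h
    · have h1 := hGr' j
      have h2 : 0 < a j + inner ℝ (t j) p' + (r' + ε) * ‖t j‖ := hj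
      rw [← h] at h2 h1
      linarith
    · exact h
  have hBfin : B.Finite := by
    refine (hfin ν hν1).subset fun j hj => ?_
    have htj := hBt j hj
    have hj' : 0 < a j + inner ℝ (t j) p' + (r' + ε) * ‖t j‖ := hj
    refine ⟨⟨p' + ((r' + ε) / ‖t j‖) • t j, ?_, ?_⟩, ?_⟩
    · have h1 : p' + ((r' + ε) / ‖t j‖) • t j - z₀ =
          (p - z₀) + (p' - p) + ((r' + ε) / ‖t j‖) • t j := by abel
      rw [h1]
      have h2 : ‖((r' + ε) / ‖t j‖) • t j‖ = r' + ε := by
        rw [norm_smul, Real.norm_of_nonneg (by positivity)]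
        field_simp
      have h3 := norm_add_le ((p - z₀) + (p' - p)) (((r' + ε) / ‖t j‖) • t j)
      have h4 := norm_add_le (p - z₀) (p' - p)
      rw [h2] at h3
      rw [hp'p] at h4
      linarith
    · rw [inner_add_right, inner_smul_right, real_inner_self_eq_norm_sq]
      have h1 : (r' + ε) / ‖t j‖ * ‖t j‖ ^ 2 = (r' + ε) * ‖t j‖ := by field_simp
      rw [h1]
      linarith
    · have h1 := hGr j
      rw [hpt] at hj'
      have h2 : (r' + ε) * ‖t j‖ ≤ (r - τ + 2 * ε) * ‖t j‖ := by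
        apply mul_le_mul_of_nonneg_right _ htj.le
        linarith
      have h3 : τ * (‖t j‖ - inner ℝ (t j) ν) ≤ 2 * ε * ‖t j‖ := by linarith
      have h4 : 2 * ε * ‖t j‖ ≤ κ * τ * ‖t j‖ := mul_le_mul_of_nonneg_right hε2 htj.le
      have h5 : τ * (‖t j‖ - inner ℝ (t j) ν) ≤ τ * (κ * ‖t j‖) := by linarith
      exact le_of_mul_le_mul_left h5 hτ0
  -- the supremum is attained
  obtain ⟨j₂, hj₂B, hj₂⟩ : ∃ j ∈ B, a j + inner ℝ (t j) p' + r' * ‖t j‖ = 0 := by
    by_contra hcon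
    push Not at hcon
    have hlt : ∀ j ∈ B, a j + inner ℝ (t j) p' + r' * ‖t j‖ < 0 := fun j hj =>
      lt_of_le_of_ne (hGr' j) (hcon j hj)
    have hex : ∃ ε' : ℝ, 0 < ε' ∧ ε' ≤ ε ∧
        ∀ j ∈ B, a j + inner ℝ (t j) p' + (r' + ε') * ‖t j‖ ≤ 0 := by
      have hev : ∀ j ∈ B, ∀ᶠ e : ℝ in 𝓝 0, a j + inner ℝ (t j) p' + (r' + e) * ‖t j‖ < 0 := by
        intro j hj
        have hc : ContinuousAt (fun e : ℝ => a j + inner ℝ (t j) p' + (r' + e) * ‖t j‖) 0 := by
          fun_prop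
        have h1 : a j + inner ℝ (t j) p' + (r' + 0) * ‖t j‖ < 0 := by
          rw [add_zero]
          exact hlt j hj
        exact hc.eventually_lt_const h1
      have hall : ∀ᶠ e : ℝ in 𝓝 0, ∀ j ∈ B, a j + inner ℝ (t j) p' + (r' + e) * ‖t j‖ < 0 :=
        (hBfin.eventually_all).2 hev
      obtain ⟨e₀, he₀, hall'⟩ := Metric.eventually_nhds_iff.1 hall
      refine ⟨min ε (e₀ / 2), by positivity, min_le_left _ _, fun j hj => ?_⟩
      refine (hall' (y := min ε (e₀ / 2)) ?_ j hj).le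
      rw [dist_zero_right, Real.norm_of_nonneg (by positivity)]
      have := min_le_right ε (e₀ / 2)
      linarith
    obtain ⟨ε', hε'0, hε'1, hall⟩ := hex
    refine hr'max (r' + ε') (by linarith) fun j => ?_
    by_cases hj : j ∈ B
    · exact hall j hj
    · have h1 : a j + inner ℝ (t j) p' + (r' + ε) * ‖t j‖ ≤ 0 := not_lt.1 hj
      have h2 : (r' + ε') * ‖t j‖ ≤ (r' + ε) * ‖t j‖ :=
        mul_le_mul_of_nonneg_right (by linarith) (norm_nonneg _)
      linarith
  have ht₂ := hBt j₂ hj₂B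
  set z : E := p' + (r' / ‖t j₂‖) • t j₂ with hz
  have hzp : ‖z - p'‖ = r' := by
    rw [hz, add_sub_cancel_left, norm_smul, Real.norm_of_nonneg (by positivity)]
    field_simp
  have hGz : G t a 0 z := hGr'.move (by rw [hzp]; linarith)
  have hz₂ : a j₂ + inner ℝ (t j₂) z = 0 := by
    rw [hz, inner_add_right, inner_smul_right, real_inner_self_eq_norm_sq]
    have h1 : r' / ‖t j₂‖ * ‖t j₂‖ ^ 2 = r' * ‖t j₂‖ := by field_simp
    rw [h1]
    linarith
  set A : Set ι := {j | j ∈ B ∧ a j + inner ℝ (t j) z = 0} with hA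
  have hAB : A ⊆ B := fun j hj => hj.1
  -- margin for the members of `B` that are not in `A`
  obtain ⟨ρ₁, hρ₁, hmar⟩ : ∃ ρ₁ : ℝ, 0 < ρ₁ ∧ ∀ j ∈ B, j ∉ A → ∀ v : E, ‖v‖ ≤ ρ₁ →
      a j + inner ℝ (t j) (z + v) ≤ 0 := by
    have hev : ∀ j ∈ B, ∀ᶠ v : E in 𝓝 0, j ∉ A → a j + inner ℝ (t j) (z + v) < 0 := by
      intro j hj
      by_cases hjA : j ∈ A
      · exact Eventually.of_forall fun v h => absurd hjA h
      · have h1 : a j + inner ℝ (t j) (z + (0 : E)) < 0 := by
          rw [add_zero]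
          have h2 := hGz j
          rw [zero_mul, add_zero] at h2
          exact lt_of_le_of_ne h2 fun h => hjA ⟨hj, h⟩
        have hc : ContinuousAt (fun v : E => a j + inner ℝ (t j) (z + v)) 0 := by fun_prop
        filter_upwards [hc.eventually_lt_const h1] with v hv _ using hv
    have hall : ∀ᶠ v : E in 𝓝 0, ∀ j ∈ B, j ∉ A → a j + inner ℝ (t j) (z + v) < 0 :=
      (hBfin.eventually_all).2 hev
    obtain ⟨e₀, he₀, hall'⟩ := Metric.eventually_nhds_iff.1 hall
    refine ⟨e₀ / 2, by positivity, fun j hj hjA v hv => ?_⟩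
    refine (hall' (y := v) ?_ j hj hjA).le
    rw [dist_zero_right]
    linarith
  refine ⟨z, min ε ρ₁, A, by positivity, hBfin.subset hAB, ⟨j₂, hj₂B, hz₂⟩,
    fun j hj => ⟨hj.2, norm_pos_iff.1 (hBt j hj.1)⟩, fun j hj v hv => ?_⟩
  by_cases hjB : j ∈ B
  · exact hmar j hjB hj v (hv.trans (min_le_right _ _))
  · have h1 : a j + inner ℝ (t j) p' + (r' + ε) * ‖t j‖ ≤ 0 := not_lt.1 hjB
    have h2 : inner ℝ (t j) (z + v) = inner ℝ (t j) p' + inner ℝ (t j) ((z - p') + v) := by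
      rw [← inner_add_right]
      congr 1
      abel
    have h3 := real_inner_le_norm (t j) ((z - p') + v)
    have h4 : ‖(z - p') + v‖ ≤ r' + ε := by
      have := norm_add_le (z - p') v
      have := hv.trans (min_le_left _ _)
      linarith
    have h5 : ‖t j‖ * ‖(z - p') + v‖ ≤ ‖t j‖ * (r' + ε) :=
      mul_le_mul_of_nonneg_left h4 (norm_nonneg _)
    linarith

end Pool.Agent.TH789.PV
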