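import Pool.Agent.TH789.BC.Ext
import Pool.Agent.TH789.PV.Touch

set_option autoImplicit false

/-!
Power diagrams with separated slopes in an infinite-dimensional Hilbert space: from a regular point of
a face one gets a regular point of a smaller face.
-/

namespace Pool.Agent.TH789.PV

open Set Metric Filter Topology

variable {H : Type*} [NormedAddCommGroup H] [InnerProductSpace ℝ H] {ι : Type*}

/-- Separated vectors near a finite-dimensional subspace are finitely many. -/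
theorem sep_finite {U : Submodule ℝ H} [FiniteDimensional ℝ U] {x : ι → H} {J : Set ι} {δ Λ : ℝ}
    (hδ : 0 < δ) (hsep : ∀ i ∈ J, ∀ j ∈ J, i ≠ j → δ ≤ ‖x i - x j‖) (hb : ∀ i ∈ J, ‖x i‖ ≤ Λ)
    (he : ∀ i ∈ J, ∃ e ∈ U, ‖x i - e‖ ≤ δ / 4) : J.Finite := by
  by_contra hinf
  have hinf : J.Infinite := hinf
  choose! e heU he using he
  let φ := hinf.natEmbedding J
  have hmem : ∀ n, (⟨e (φ n), heU _ (φ n).2⟩ : U) ∈ closedBall (0 : U) (Λ + δ / 4) := by
    intro n
    rw [mem_closedBall, dist_zero_right]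
    have h1 : ‖(⟨e (φ n), heU _ (φ n).2⟩ : U)‖ = ‖e (φ n)‖ := rfl
    rw [h1]
    have h2 : e (φ n) = x (φ n) - (x (φ n) - e (φ n)) := by abel
    rw [h2]
    have h3 := norm_sub_le (x (φ n)) (x (φ n) - e (φ n))
    have h4 := hb _ (φ n).2
    have h5 := he _ (φ n).2
    linarith
  obtain ⟨u, -, ψ, hψ, hlim⟩ := (isCompact_closedBall (0 : U) (Λ + δ / 4)).tendsto_subseq hmem
  obtain ⟨N, hN⟩ := Metric.cauchySeq_iff.1 hlim.cauchySeq (δ / 2) (by positivity)
  have h1 := hN N le_rfl (N + 1) (by omega)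
  have hne : (φ (ψ N) : ι) ≠ φ (ψ (N + 1)) := by
    intro h
    have h2 := φ.injective (Subtype.ext h)
    have h3 := hψ.injective h2
    omega
  have h2 := hsep _ (φ (ψ N)).2 _ (φ (ψ (N + 1))).2 hne
  have h3 := he _ (φ (ψ N)).2
  have h4 := he _ (φ (ψ (N + 1))).2
  have h5 : dist ((⟨e (φ (ψ N)), heU _ (φ (ψ N)).2⟩ : U)) ⟨e (φ (ψ (N + 1))), heU _ (φ (ψ (N + 1))).2⟩ =
      ‖e (φ (ψ N)) - e (φ (ψ (N + 1)))‖ := by
    rw [dist_eq_norm]
    rfl
  have h6 : dist (((fun n => (⟨e (φ n), heU _ (φ n).2⟩ : U)) ∘ ψ) N)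
      (((fun n => (⟨e (φ n), heU _ (φ n).2⟩ : U)) ∘ ψ) (N + 1)) =
      ‖e (φ (ψ N)) - e (φ (ψ (N + 1)))‖ := h5
  rw [h6] at h1
  have h7 : x (φ (ψ N)) - x (φ (ψ (N + 1))) = (x (φ (ψ N)) - e (φ (ψ N))) +
      (e (φ (ψ N)) - e (φ (ψ (N + 1)))) - (x (φ (ψ (N + 1))) - e (φ (ψ (N + 1)))) := by abel
  rw [h7] at h2
  have h8 := norm_sub_le ((x (φ (ψ N)) - e (φ (ψ N))) + (e (φ (ψ N)) - e (φ (ψ (N + 1)))))
    (x (φ (ψ (N + 1))) - e (φ (ψ (N + 1))))
  have h9 := norm_add_le (x (φ (ψ N)) - e (φ (ψ N))) (e (φ (ψ N)) - e (φ (ψ (N + 1))))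
  linarith

/-- the affine function with index `i` -/
noncomputable def fn (s : ι → H) (c : ι → ℝ) (i : ι) (x : H) : ℝ := inner ℝ (s i) x + c i

variable {s : ι → H} {c : ι → ℝ}

theorem fn_add (i : ι) (x v : H) : fn s c i (x + v) = fn s c i x + inner ℝ (s i) v := by
  unfold fn
  rw [inner_add_right]
  ring

theorem fn_cont (i : ι) : Continuous (fn s c i) := by
  unfold fn
  fun_prop

theorem loc_bdd [CompleteSpace H] (hbdd : ∀ x, ∃ M, ∀ i, fn s c i x ≤ M) (x : H) :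
    ∃ δ M : ℝ, 0 < δ ∧ ∀ y : H, ‖y - x‖ ≤ δ → ∀ i, fn s c i y ≤ M := by
  have hcl : ∀ n : ℕ, IsClosed {y : H | ∀ i, fn s c i y ≤ (n : ℝ)} := by
    intro n
    have : {y : H | ∀ i, fn s c i y ≤ (n : ℝ)} = ⋂ i, {y | fn s c i y ≤ (n : ℝ)} := by
      ext y
      simp only [Set.mem_ofPred_eq, mem_iInter]
    rw [this]
    exact isClosed_iInter fun i => isClosed_le (fn_cont i) continuous_const
  have hun : (⋃ n : ℕ, {y : H | ∀ i, fn s c i y ≤ (n : ℝ)}) = univ := by
    rw [eq_univ_iff_forall]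
    intro y
    obtain ⟨M, hM⟩ := hbdd y
    obtain ⟨n, hn⟩ := exists_nat_ge M
    exact mem_iUnion.2 ⟨n, fun i => (hM i).trans hn⟩
  obtain ⟨n, y0, hy0⟩ := nonempty_interior_of_iUnion_of_closed hcl hun
  rw [mem_interior_iff_mem_nhds, Metric.mem_nhds_iff] at hy0
  obtain ⟨ε, hε, hball⟩ := hy0
  obtain ⟨M, hM⟩ := hbdd ((2 : ℝ) • x - y0)
  refine ⟨ε / 4, (M + n) / 2, by positivity, fun y hy b => ?_⟩
  have h2 : y0 + (2 : ℝ) • (y - x) ∈ ball y0 ε := by
    rw [mem_ball, dist_eq_norm, add_sub_cancel_left, norm_smul, Real.norm_of_nonneg (by norm_num)]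
    linarith
  have h3 : fn s c b (y0 + (2 : ℝ) • (y - x)) ≤ n := hball h2 b
  have h4 := hM b
  have h5 : fn s c b y = (1 / 2) * (fn s c b ((2 : ℝ) • x - y0) + fn s c b (y0 + (2 : ℝ) • (y - x))) := by
    unfold fn
    rw [inner_sub_right, inner_add_right, inner_smul_right, inner_smul_right, inner_sub_right]
    ring
  rw [h5]
  linarith

/-- `z` is a regular point of the face of the set `S` of indices -/
def Good (s : ι → H) (c : ι → ℝ) (i₀ : ι) (S : Set ι) (z : H) (ρ : ℝ) : Prop :=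
  0 < ρ ∧ (∀ i ∈ S, fn s c i z = fn s c i₀ z) ∧
    ∀ v : H, (∀ i ∈ S, inner ℝ (s i - s i₀) v = 0) → ‖v‖ ≤ ρ →
      ∀ j, fn s c j (z + v) ≤ fn s c i₀ (z + v)

theorem step [CompleteSpace H] (hinf : ¬ FiniteDimensional ℝ H) {δ : ℝ} (hδ : 0 < δ)
    (hsep : ∀ i j, i ≠ j → δ ≤ ‖s i - s j‖) (hbdd : ∀ x, ∃ M, ∀ i, fn s c i x ≤ M) {i₀ : ι} {R : ℝ}
    (hR : ∀ x, (∀ j, fn s c j x ≤ fn s c i₀ x) → ‖x‖ ≤ R) {S : Set ι} (hS : S.Finite) {z : H}
    {ρ : ℝ} (hg : Good s c i₀ S z ρ) :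
    ∃ (S' : Set ι) (z' : H) (ρ' : ℝ), S ⊆ S' ∧ S'.Finite ∧ (∃ j ∈ S', j ∉ S) ∧
      Good s c i₀ S' z' ρ' := by
  classical
  obtain ⟨hρ, hSz, hgv⟩ := hg
  set x : ι → H := fun j => s j - s i₀ with hx
  set U : Submodule ℝ H := Submodule.span ℝ (x '' S) with hU
  have hfd : FiniteDimensional ℝ U := FiniteDimensional.span_of_finite ℝ (hS.image x)
  have hUV : ∀ v : H, (∀ i ∈ S, inner ℝ (x i) v = 0) → v ∈ Uᗮ := by
    intro v hv
    rw [Submodule.mem_orthogonal]
    intro u hu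
    induction hu using Submodule.span_induction with
    | mem w hw =>
      obtain ⟨i, hi, rfl⟩ := hw
      exact hv i hi
    | zero => simp
    | add a b _ _ ha hb => rw [inner_add_left, ha, hb, add_zero]
    | smul r a _ ha => rw [inner_smul_left, ha, mul_zero]
  have hVx : ∀ v ∈ Uᗮ, ∀ i ∈ S, inner ℝ (x i) v = 0 := by
    intro v hv i hi
    exact (Submodule.mem_orthogonal U v).1 hv _ (Submodule.subset_span ⟨i, hi, rfl⟩)
  set e : ι → H := fun j => U.starProjection (x j) with he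
  have heU : ∀ j, e j ∈ U := fun j => U.starProjection_apply_mem _
  have htV : ∀ j, x j - e j ∈ Uᗮ := fun j => Submodule.sub_starProjection_mem_orthogonal _
  let t : ι → Uᗮ := fun j => ⟨x j - e j, htV j⟩
  have htin : ∀ j (v : Uᗮ), inner ℝ (t j) v = inner ℝ (x j) (v : H) := by
    intro j v
    have h1 : inner ℝ (t j) v = inner ℝ (x j - e j) (v : H) := rfl
    rw [h1, inner_sub_left, (Submodule.mem_orthogonal U (v : H)).1 v.2 _ (heU j), sub_zero]
  have htS : ∀ i ∈ S, t i = 0 := by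
    intro i hi
    have h1 : inner ℝ (t i) (t i) = 0 := by
      rw [htin]
      exact hVx _ (t i).2 i hi
    exact inner_self_eq_zero.1 h1
  let a : ι → ℝ := fun j => fn s c j z - fn s c i₀ z
  have key : ∀ j (v : Uᗮ), fn s c j (z + v) - fn s c i₀ (z + v) = a j + inner ℝ (t j) v := by
    intro j v
    rw [htin, fn_add, fn_add, hx]
    simp only
    rw [inner_sub_left]
    simp only [a]
    ring
  have h0 : G t a ρ 0 := by
    intro j
    rw [inner_zero_right, add_zero]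
    by_cases ht : t j = 0
    · have h1 := hgv 0 (fun i _ => inner_zero_right _) (by simpa using hρ.le) j
      rw [add_zero] at h1
      rw [ht, norm_zero, mul_zero, add_zero]
      simp only [a]
      linarith
    · have htp : 0 < ‖t j‖ := norm_pos_iff.2 ht
      set v : Uᗮ := (ρ / ‖t j‖) • t j with hv
      have hvn : ‖(v : H)‖ ≤ ρ := by
        have h1 : ‖(v : H)‖ = ‖v‖ := rfl
        rw [h1, hv, norm_smul, Real.norm_of_nonneg (by positivity)]
        have : ρ / ‖t j‖ * ‖t j‖ = ρ := by field_simp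
        rw [this]
      have h1 := hgv v (hVx v v.2) hvn j
      have h2 := key j v
      rw [hv, inner_smul_right, real_inner_self_eq_norm_sq] at h2
      have h3 : ρ / ‖t j‖ * ‖t j‖ ^ 2 = ρ * ‖t j‖ := by field_simp
      rw [h3, ← hv] at h2
      linarith
  obtain ⟨y, hy⟩ : ∃ y : Uᗮ, ¬ G t a 0 y := by
    obtain ⟨v, hvn, hv⟩ := BC.exists_orth hinf (hS.image x) (ε := |R| + ‖z‖ + 1) (by positivity)
    refine ⟨⟨v, hUV v fun i hi => hv _ ⟨i, hi, rfl⟩⟩, fun hG => ?_⟩
    have h1 : ‖z + v‖ ≤ R := by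
      apply hR
      intro j
      have h2 := hG j
      have h3 := key j ⟨v, hUV v fun i hi => hv _ ⟨i, hi, rfl⟩⟩
      rw [zero_mul, add_zero] at h2
      rw [← h3] at h2
      exact sub_nonpos.1 h2
    have h2 : v = (z + v) - z := by abel
    have h3 := norm_sub_le (z + v) z
    rw [← h2, hvn] at h3
    have := le_abs_self R
    linarith
  have hfin : ∀ z₁ : Uᗮ, ∃ δ' κ : ℝ, 0 < δ' ∧ 0 < κ ∧ ∀ ν : Uᗮ, ‖ν‖ = 1 →
      {j | (∃ w, ‖w - z₁‖ ≤ δ' ∧ 0 < a j + inner ℝ (t j) w) ∧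
        ‖t j‖ - inner ℝ (t j) ν ≤ κ * ‖t j‖}.Finite := by
    intro z₁
    obtain ⟨δ₁, M, hδ₁, hM⟩ := loc_bdd hbdd (z + z₁)
    set δ₀ := δ₁ / 2 with hδ₀
    have hδ₀p : 0 < δ₀ := by positivity
    set K := ‖s i₀‖ * (‖z + z₁‖ + δ₀) + |c i₀| with hK
    set Λ := |(M + K) / δ₀| + ‖s i₀‖ with hΛ
    have hΛ0 : 0 ≤ Λ := by positivity
    set κ := (δ / 4) ^ 2 / (2 * Λ ^ 2 + 1) with hκ
    have hκ0 : 0 < κ := by positivity
    have hκΛ : 2 * κ * Λ ^ 2 ≤ (δ / 4) ^ 2 := by
      have h1 : κ * (2 * Λ ^ 2 + 1) = (δ / 4) ^ 2 := by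
        rw [hκ]
        field_simp
      linarith
    refine ⟨δ₀, κ, hδ₀p, hκ0, fun ν hν => ?_⟩
    -- slopes of competitors are bounded
    have hsb : ∀ j, (∃ w : Uᗮ, ‖w - z₁‖ ≤ δ₀ ∧ 0 < a j + inner ℝ (t j) w) → ‖x j‖ ≤ Λ := by
      rintro j ⟨w, hw, hpos⟩
      rw [← key] at hpos
      have hwH : ‖(z + w) - (z + z₁)‖ ≤ δ₀ := by
        have h1 : (z + (w : H)) - (z + z₁) = ((w - z₁ : Uᗮ) : H) := by
          rw [Submodule.coe_sub]
          abel
        rw [h1]
        exact hw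
      have hKw : -K ≤ fn s c i₀ (z + w) := by
        unfold fn
        have h1 := abs_real_inner_le_norm (s i₀) (z + (w : H))
        have h2 := neg_abs_le (inner ℝ (s i₀) (z + (w : H)))
        have h3 := neg_abs_le (c i₀)
        have h4 : ‖z + (w : H)‖ ≤ ‖z + z₁‖ + δ₀ := by
          have h5 : z + (w : H) = (z + z₁) + ((z + w) - (z + z₁)) := by abel
          rw [h5]
          exact (norm_add_le _ _).trans (by linarith)
        have h5 : ‖s i₀‖ * ‖z + (w : H)‖ ≤ ‖s i₀‖ * (‖z + z₁‖ + δ₀) := by gcongr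
        linarith
      have hsj : ‖s j‖ ≤ |(M + K) / δ₀| := by
        by_cases hz : s j = 0
        · rw [hz, norm_zero]
          positivity
        · have hn : 0 < ‖s j‖ := norm_pos_iff.2 hz
          have h1 := hM (z + w + (δ₀ / ‖s j‖) • s j) (by
            have h2 : z + w + (δ₀ / ‖s j‖) • s j - (z + z₁) =
              ((z + w) - (z + z₁)) + (δ₀ / ‖s j‖) • s j := by abel
            rw [h2]
            refine (norm_add_le _ _).trans ?_
            rw [norm_smul, Real.norm_of_nonneg (by positivity)]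
            have h3 : δ₀ / ‖s j‖ * ‖s j‖ = δ₀ := by field_simp
            rw [h3]
            linarith) j
          rw [fn_add, inner_smul_right, real_inner_self_eq_norm_sq] at h1
          have h3 : δ₀ / ‖s j‖ * ‖s j‖ ^ 2 = δ₀ * ‖s j‖ := by field_simp
          rw [h3] at h1
          have h4 : ‖s j‖ ≤ (M + K) / δ₀ := by
            rw [le_div_iff₀ hδ₀p]
            linarith
          exact h4.trans (le_abs_self _)
      have h1 : ‖x j‖ ≤ ‖s j‖ + ‖s i₀‖ := norm_sub_le _ _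
      linarith
    have hfd2 : FiniteDimensional ℝ (U ⊔ Submodule.span ℝ {(ν : H)} : Submodule ℝ H) := inferInstance
    refine sep_finite (U := U ⊔ Submodule.span ℝ {(ν : H)}) (x := x) (δ := δ) (Λ := Λ) hδ ?_ ?_ ?_
    · intro i _ j _ hij
      have h1 : x i - x j = s i - s j := by
        simp only [hx]
        abel
      rw [h1]
      exact hsep i j hij
    · intro j hj
      exact hsb j hj.1
    · intro j hj
      refine ⟨e j + inner ℝ (t j) ν • (ν : H), ?_, ?_⟩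
      · exact Submodule.add_mem_sup (heU j)
          (Submodule.smul_mem _ _ (Submodule.mem_span_singleton_self _))
      · have htj : ‖t j‖ ≤ Λ := by
          have h1 := htin j (t j)
          rw [real_inner_self_eq_norm_sq] at h1
          have h2 := real_inner_le_norm (x j) ((t j : Uᗮ) : H)
          have h3 : ‖((t j : Uᗮ) : H)‖ = ‖t j‖ := rfl
          rw [← h1, h3] at h2
          rcases (norm_nonneg (t j)).eq_or_lt with h4 | h4
          · rw [← h4]
            exact hΛ0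
          · have h5 : ‖t j‖ ≤ ‖x j‖ := by
              rw [pow_two] at h2
              exact le_of_mul_le_mul_right h2 h4
            exact h5.trans (hsb j hj.1)
        have h1 : x j - (e j + inner ℝ (t j) ν • (ν : H)) = ((t j - inner ℝ (t j) ν • ν : Uᗮ) : H) := by
          rw [Submodule.coe_sub, Submodule.coe_smul]
          simp only [t]
          abel
        rw [h1]
        have h2 : ‖((t j - inner ℝ (t j) ν • ν : Uᗮ) : H)‖ = ‖t j - inner ℝ (t j) ν • ν‖ := rfl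
        rw [h2]
        have h3 : ‖t j - inner ℝ (t j) ν • ν‖ ^ 2 = ‖t j‖ ^ 2 - inner ℝ (t j) ν ^ 2 := by
          rw [norm_sub_sq_real, inner_smul_right, norm_smul, hν, mul_one, Real.norm_eq_abs, sq_abs]
          ring
        have h4 : inner ℝ (t j) ν ≤ ‖t j‖ := by
          have := real_inner_le_norm (t j) ν
          rwa [hν, mul_one] at this
        have h5 : ‖t j‖ ^ 2 - inner ℝ (t j) ν ^ 2 ≤ (δ / 4) ^ 2 := by
          have h6 : (‖t j‖ - inner ℝ (t j) ν) * (‖t j‖ + inner ℝ (t j) ν) ≤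
              (κ * ‖t j‖) * (2 * ‖t j‖) := by
            have h7 : -‖t j‖ ≤ inner ℝ (t j) ν := by
              have h8 := abs_real_inner_le_norm (t j) ν
              rw [hν, mul_one] at h8
              exact (abs_le.1 h8).1
            apply mul_le_mul hj.2 (by linarith) (by linarith)
            exact mul_nonneg hκ0.le (norm_nonneg _)
          have h7 : κ * ‖t j‖ ^ 2 ≤ κ * Λ ^ 2 := by gcongr
          nlinarith
        rw [← h3] at h5
        exact (pow_le_pow_iff_left₀ (norm_nonneg _) (by positivity) two_ne_zero).1 h5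
  obtain ⟨z₁, ρ', A, hρ', hAf, ⟨j₁, hj₁⟩, hAz, hA⟩ := touch hρ h0 hy hfin
  have hz' : ∀ i ∈ S ∪ A, fn s c i (z + z₁) = fn s c i₀ (z + z₁) := by
    rintro i (hi | hi)
    · have h1 := key i z₁
      rw [htS i hi, inner_zero_left] at h1
      have h2 : a i = 0 := by
        simp only [a]
        rw [hSz i hi, sub_self]
      rw [h2, add_zero] at h1
      exact sub_eq_zero.1 h1
    · have h1 := key i z₁
      rw [(hAz i hi).1] at h1
      exact sub_eq_zero.1 h1
  refine ⟨S ∪ A, z + z₁, ρ', subset_union_left, hS.union hAf, ⟨j₁, Or.inr hj₁, fun h => ?_⟩,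
    hρ', hz', fun v hv hvn j => ?_⟩
  · exact (hAz j₁ hj₁).2 (htS j₁ h)
  · by_cases hj : j ∈ A
    · have h1 := hz' j (Or.inr hj)
      have h2 := hv j (Or.inr hj)
      rw [fn_add j (z + z₁) v, fn_add i₀ (z + z₁) v, h1]
      rw [inner_sub_left] at h2
      linarith
    · have hvV : v ∈ Uᗮ := hUV v fun i hi => hv i (Or.inl hi)
      have h1 := hA j hj ⟨v, hvV⟩ hvn
      have h2 := key j (z₁ + ⟨v, hvV⟩)
      rw [← h2, Submodule.coe_add, ← add_assoc] at h1
      exact sub_nonpos.1 h1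

/-- A power diagram with separated slopes, one of whose cells is bounded and has an interior point,
has a point in infinitely many cells. -/
theorem infinite_cells [CompleteSpace H] (hinf : ¬ FiniteDimensional ℝ H) {δ : ℝ} (hδ : 0 < δ)
    (hsep : ∀ i j, i ≠ j → δ ≤ ‖s i - s j‖) (hbdd : ∀ x, ∃ M, ∀ i, fn s c i x ≤ M) {i₀ : ι} {R : ℝ}
    (hR : ∀ x, (∀ j, fn s c j x ≤ fn s c i₀ x) → ‖x‖ ≤ R)
    (hint : (interior {x | ∀ j, fn s c j x ≤ fn s c i₀ x}).Nonempty) :
    ∃ x, {i | ∀ j, fn s c j x ≤ fn s c i x}.Infinite := by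
  obtain ⟨z₀, hz₀⟩ := hint
  rw [mem_interior_iff_mem_nhds, Metric.mem_nhds_iff] at hz₀
  obtain ⟨ε, hε, hball⟩ := hz₀
  have hg₀ : Good s c i₀ {i₀} z₀ (ε / 2) := by
    refine ⟨by positivity, fun i hi => by rw [mem_singleton_iff.1 hi], fun v _ hv j => ?_⟩
    have h1 : z₀ + v ∈ ball z₀ ε := by
      rw [mem_ball, dist_eq_norm, add_sub_cancel_left]
      linarith
    exact hball h1 j
  let X := {p : Set ι × H × ℝ // p.1.Finite ∧ i₀ ∈ p.1 ∧ Good s c i₀ p.1 p.2.1 p.2.2}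
  have hstep : ∀ p : X, ∃ q : X, p.1.1 ⊆ q.1.1 ∧ ∃ j ∈ q.1.1, j ∉ p.1.1 := by
    rintro ⟨⟨S, z, ρ⟩, hS, hi, hg⟩
    obtain ⟨S', z', ρ', h1, h2, h3, h4⟩ := step hinf hδ hsep hbdd hR hS hg
    exact ⟨⟨(S', z', ρ'), h2, h1 hi, h4⟩, h1, h3⟩
  choose nxt hnxt1 hnxt2 using hstep
  let p₀ : X := ⟨({i₀}, z₀, ε / 2), finite_singleton _, mem_singleton _, hg₀⟩
  let seq : ℕ → X := fun n => nxt^[n] p₀
  have hseq : ∀ n, seq (n + 1) = nxt (seq n) := by
    intro n
    simp only [seq]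
    rw [Function.iterate_succ_apply']
  let K : ℕ → Set H := fun n => {x | ∀ i ∈ (seq n).1.1, ∀ j, fn s c j x ≤ fn s c i x}
  have hKne : ∀ n, (K n).Nonempty := by
    intro n
    obtain ⟨hf, hi, hρ, hz, hv⟩ := (seq n).2
    refine ⟨(seq n).1.2.1, fun i hi' j => ?_⟩
    rw [hz i hi']
    have h1 := hv 0 (fun i _ => inner_zero_right _) (by simpa using hρ.le) j
    rwa [add_zero] at h1
  have hKcl : ∀ n, IsClosed (K n) := by
    intro n
    have h1 : K n = ⋂ i ∈ (seq n).1.1, ⋂ j, {x | fn s c j x ≤ fn s c i x} := by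
      ext x
      simp only [K, Set.mem_ofPred_eq, mem_iInter]
    rw [h1]
    exact isClosed_biInter fun i _ => isClosed_iInter fun j =>
      isClosed_le (fn_cont j) (fn_cont i)
  have hKcv : ∀ n, Convex ℝ (K n) := by
    intro n x hx y hy α β hα hβ hαβ i hi j
    have h1 : ∀ k, fn s c k (α • x + β • y) = α * fn s c k x + β * fn s c k y := by
      intro k
      unfold fn
      rw [inner_add_right, inner_smul_right, inner_smul_right]
      have : c k = α * c k + β * c k := by rw [← add_mul, hαβ, one_mul]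
      linarith
    rw [h1, h1]
    have h2 := mul_le_mul_of_nonneg_left (hx i hi j) hα
    have h3 := mul_le_mul_of_nonneg_left (hy i hi j) hβ
    linarith
  have hKdec : ∀ n, K (n + 1) ⊆ K n := by
    intro n x hx i hi j
    refine hx i ?_ j
    rw [hseq]
    exact hnxt1 _ hi
  have hKR : ∀ n, ∀ x ∈ K n, ‖x‖ ≤ R := fun n x hx => hR x (hx i₀ (seq n).2.2.1)
  obtain ⟨x, hx⟩ := BC.nested K hKne hKcl hKcv hKdec R hKR
  refine ⟨x, fun hfin => ?_⟩
  have hcard : ∀ n, n ≤ (seq n).1.1.ncard := by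
    intro n
    induction n with
    | zero => exact Nat.zero_le _
    | succ n ih =>
      have h1 : (seq n).1.1 ⊂ (seq (n + 1)).1.1 := by
        rw [hseq]
        obtain ⟨j, hj, hj'⟩ := hnxt2 (seq n)
        exact ⟨hnxt1 _, fun h => hj' (h hj)⟩
      have h2 := ncard_lt_ncard h1 (seq (n + 1)).2.1
      omega
  have h1 := hcard ({i | ∀ j, fn s c j x ≤ fn s c i x}.ncard + 1)
  have h2 : (seq ({i | ∀ j, fn s c j x ≤ fn s c i x}.ncard + 1)).1.1 ⊆
      {i | ∀ j, fn s c j x ≤ fn s c i x} := fun i hi j => hx _ i hi j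
  have h3 := ncard_le_ncard h2 hfin
  omega

end Pool.Agent.TH789.PV
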